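import Pool.Agent.Helper81.FP.Pieces

/-!
Digits and arcs.
-/

set_option autoImplicit false

open Finset

namespace Pool.Agent.Helper81.FP

open Pool.Agent.Helper16.NM (ee)

/-- the digits at the positions `i, …, i + l - 1` -/
theorem digit_arc {b M l i : ℕ} (hb : 0 < b) (hi : i + l ≤ M) (a u : ℕ) (hu : u < b ^ l) :
    a / b ^ i % b ^ l = u ↔
      InArc (b ^ M) ((u * b ^ (M - l) : ℕ) : ℤ) (b ^ (M - l)) ((a * b ^ (M - i - l) : ℕ) : ℤ) := by
  obtain ⟨e, he⟩ : ∃ e, M = i + l + e := ⟨M - (i + l), by omega⟩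
  have e1 : M - l = i + e := by omega
  have e2 : M - i - l = e := by omega
  have hbi : 0 < b ^ i := Nat.pow_pos hb
  have hbe : 0 < b ^ e := Nat.pow_pos hb
  have hbl : 0 < b ^ l := Nat.pow_pos hb
  rw [e1, e2]
  -- the division with remainder
  set q := a / b ^ i / b ^ l with hq
  set D := a / b ^ i % b ^ l with hD
  set ρ := a % b ^ i with hρ
  have hρlt : ρ < b ^ i := Nat.mod_lt _ hbi
  have hDlt : D < b ^ l := Nat.mod_lt _ hbl
  have ha : a = (q * b ^ l + D) * b ^ i + ρ := by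
    have h1 := Nat.div_add_mod a (b ^ i)
    have h2 := Nat.div_add_mod (a / b ^ i) (b ^ l)
    rw [← hq, ← hD] at h2
    rw [← hρ] at h1
    rw [← h1, ← h2]
    ring
  have hM : b ^ M = b ^ l * b ^ (i + e) := by
    rw [he, ← pow_add]
    congr 1
    ring
  have hval : a * b ^ e = q * b ^ M + (D * b ^ (i + e) + ρ * b ^ e) := by
    rw [hM, pow_add]
    conv_lhs => rw [ha]
    ring
  have hρe : ρ * b ^ e < b ^ (i + e) := by
    rw [pow_add]
    exact Nat.mul_lt_mul_of_pos_right hρlt hbe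
  constructor
  · intro h
    refine ⟨ρ * b ^ e, hρe, ?_⟩
    rw [hval, h]
    refine ⟨q, ?_⟩
    push_cast
    ring
  · rintro ⟨r, hr, c, hc⟩
    have h1 : ((D * b ^ (i + e) + ρ * b ^ e : ℕ) : ℤ) - ((u * b ^ (i + e) + r : ℕ) : ℤ) =
        (b ^ M : ℕ) * (c - q) := by
      rw [hval] at hc
      push_cast at hc ⊢
      linarith
    have h2 : ∀ v s : ℕ, v < b ^ l → s < b ^ (i + e) → v * b ^ (i + e) + s < b ^ M := by
      intro v s hv hs
      rw [hM]
      have : (v + 1) * b ^ (i + e) ≤ b ^ l * b ^ (i + e) := Nat.mul_le_mul_right _ hv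
      rw [Nat.add_mul, one_mul] at this
      omega
    have h3 := h2 D _ hDlt hρe
    have h4 := h2 u r hu hr
    have h5 : c - q = 0 := by
      by_contra hne
      have h6 : 1 ≤ |c - q| := Int.one_le_abs hne
      have h7 : |((D * b ^ (i + e) + ρ * b ^ e : ℕ) : ℤ) - ((u * b ^ (i + e) + r : ℕ) : ℤ)| <
          (b ^ M : ℕ) := by
        rw [abs_lt]
        constructor <;> omega
      rw [h1, abs_mul, abs_of_nonneg (by positivity : (0 : ℤ) ≤ (b ^ M : ℕ))] at h7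
      have h8 : (0 : ℤ) < (b ^ M : ℕ) := by
        have : 0 < b ^ M := Nat.pow_pos hb
        exact_mod_cast this
      nlinarith
    rw [h5, mul_zero, sub_eq_zero] at h1
    have h6 : D * b ^ (i + e) + ρ * b ^ e = u * b ^ (i + e) + r := by exact_mod_cast h1
    have hbie : 0 < b ^ (i + e) := Nat.pow_pos hb
    have h7 : (D * b ^ (i + e) + ρ * b ^ e) / b ^ (i + e) = D := by
      rw [Nat.add_comm, Nat.add_mul_div_right _ _ hbie, Nat.div_eq_of_lt hρe, Nat.zero_add]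
    have h8 : (u * b ^ (i + e) + r) / b ^ (i + e) = u := by
      rw [Nat.add_comm, Nat.add_mul_div_right _ _ hbie, Nat.div_eq_of_lt hr, Nat.zero_add]
    rw [← h7, h6, h8]

/-- the complement of an arc -/
theorem arc_compl {N : ℕ} (hN : 0 < N) (a : ℤ) {w : ℕ} (hw : w ≤ N) (m : ℤ)
    (h : ¬ InArc N a w m) : InArc N (a + w) (N - w) m := by
  have hN' : (0 : ℤ) < N := by exact_mod_cast hN
  obtain ⟨r, hr⟩ : ∃ r, r = ((m - a) % N).toNat := ⟨_, rfl⟩
  have h1 : 0 ≤ (m - a) % N := Int.emod_nonneg _ hN'.ne'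
  have h2 : (m - a) % N < N := Int.emod_lt_of_pos _ hN'
  have h3 : (r : ℤ) = (m - a) % N := by omega
  have h4 : (N : ℤ) ∣ m - (a + r) := by
    have h5 := Int.emod_add_mul_ediv (m - a) N
    refine ⟨(m - a) / N, ?_⟩
    rw [h3]
    linarith
  have h6 : w ≤ r := by
    by_contra hlt
    push Not at hlt
    exact h ⟨r, hlt, h4⟩
  refine ⟨r - w, by omega, ?_⟩
  have h7 : m - (a + w + ((r - w : ℕ) : ℤ)) = m - (a + r) := by
    push_cast [Nat.cast_sub h6]
    ring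
  rw [h7]
  exact h4

/-- DYADIC PIECES OF A DIGIT BLOCK, from above and from below. -/
theorem pieces_digit {b l M r : ℕ} (hb : 2 ≤ b) (hlM : l ≤ M) (hr : 2 ^ (4 * r + 1) ≤ b ^ M)
    (u : ℕ) (hu : u < b ^ l) :
    ∃ (c : Bool → ℕ → ℤ → ℂ) (T : Bool → ℕ → ℤ → ℝ),
      (∀ B s, c B s 0 = 0) ∧ (∀ B s h, 2 ^ s ≤ |h| → c B s h = 0) ∧
      (∀ B s h, c B s (-h) = (starRingEnd ℂ) (c B s h)) ∧
      (∀ B, ∀ s ∈ Icc 1 (4 * r), ∀ h, ‖c B s h‖ ≤ 1 / 2 / 2 ^ s) ∧
      (∀ B s m, (T B s m : ℂ) =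
        ∑ h ∈ Ioo (-(2 ^ s : ℤ)) (2 ^ s), c B s h * ee (b ^ M) (h * m)) ∧
      (∀ B, ∀ s ∈ Icc 1 (4 * r), ∀ m, |T B s m| ≤ 2) ∧
      ∀ i a : ℕ, i + l ≤ M →
        (if a / b ^ i % b ^ l = u then (1 : ℝ) else 0) ≤ 1 / (b : ℝ) ^ l + 2 / 2 ^ r +
          ∑ s ∈ Icc 1 (4 * r), T true s ((a * b ^ (M - i - l) : ℕ) : ℤ) ∧
        1 / (b : ℝ) ^ l - 2 / 2 ^ r +
          ∑ s ∈ Icc 1 (4 * r), T false s ((a * b ^ (M - i - l) : ℕ) : ℤ) ≤
            (if a / b ^ i % b ^ l = u then (1 : ℝ) else 0) := by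
  have hb0 : 0 < b := by omega
  have hb' : (0 : ℝ) < b := by exact_mod_cast hb0
  have hbM : 0 < b ^ M := Nat.pow_pos hb0
  have hwM : b ^ (M - l) ≤ b ^ M := Nat.pow_le_pow_right hb0 (by omega)
  obtain ⟨c, T, h1, h2, h3, h4, h5, h6, h7, h8⟩ :=
    pieces (N := b ^ M) ((u * b ^ (M - l) : ℕ) : ℤ) hwM hr
  obtain ⟨c', T', h1', h2', h3', h4', h5', h6', h7', h8'⟩ :=
    pieces (N := b ^ M) ((u * b ^ (M - l) : ℕ) + (b ^ (M - l) : ℕ) : ℤ)
      (w := b ^ M - b ^ (M - l)) (Nat.sub_le _ _) hr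
  have hw1 : ((b ^ (M - l) : ℕ) : ℝ) / ((b ^ M : ℕ) : ℝ) = 1 / (b : ℝ) ^ l := by
    push_cast
    rw [div_eq_div_iff (by positivity) (by positivity), one_mul, ← pow_add]
    congr 1
    omega
  have hw2 : ((b ^ M - b ^ (M - l) : ℕ) : ℝ) / ((b ^ M : ℕ) : ℝ) = 1 - 1 / (b : ℝ) ^ l := by
    rw [Nat.cast_sub hwM, sub_div, hw1, div_self (by exact_mod_cast hbM.ne')]
  rw [hw1] at h7 h8
  rw [hw2] at h7' h8'
  refine ⟨fun B => if B then c else fun s h => -c' s h,
    fun B => if B then T else fun s m => -T' s m, ?_, ?_, ?_, ?_, ?_, ?_, ?_⟩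
  · rintro (_ | _) s
    · simp [h1']
    · simp [h1]
  · rintro (_ | _) s h hh
    · simp [h2' s h hh]
    · simp [h2 s h hh]
  · rintro (_ | _) s h
    · simp [h3']
    · simp [h3]
  · rintro (_ | _) s hs h
    · simpa using h4' s hs h
    · simpa using h4 s hs h
  · rintro (_ | _) s m
    · have := h5' s m
      simp only [Bool.false_eq_true, if_false, Complex.ofReal_neg, this, neg_mul, sum_neg_distrib]
    · simpa using h5 s m
  · rintro (_ | _) s hs m
    · simpa using h6' s hs m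
    · simpa using h6 s hs m
  · intro i a hi
    have hiff := digit_arc hb0 hi a u hu
    simp only [if_true, Bool.false_eq_true, if_false, sum_neg_distrib]
    constructor
    · split_ifs with h
      · exact h8 _ (hiff.1 h)
      · exact h7 _
    · split_ifs with h
      · have := h7' ((a * b ^ (M - i - l) : ℕ) : ℤ)
        linarith
      · have h9 : ¬ InArc (b ^ M) ((u * b ^ (M - l) : ℕ) : ℤ) (b ^ (M - l))
            ((a * b ^ (M - i - l) : ℕ) : ℤ) := fun h' => h (hiff.2 h')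
        have := h8' _ (arc_compl hbM _ hwM _ h9)
        linarith

end Pool.Agent.Helper81.FP
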