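import Pool.Agent.Helper16.NM.Riesz

/-!
The kernel of Fejer on the integers modulo `N`.
-/

set_option autoImplicit false

open Finset

namespace Pool.Agent.Helper81.FP

open Pool.Agent.Helper16.NM (ee ee_zero ee_add norm_ee ee_neg ee_pow sum_ee_eq_zero)

/-- the kernel of Fejer of order `n` -/
noncomputable def Fej (N n : ℕ) (t : ℤ) : ℝ := ‖∑ j ∈ range n, ee N (t * j)‖ ^ 2 / n

theorem Fej_nonneg (N n : ℕ) (t : ℤ) : 0 ≤ Fej N n t := by unfold Fej; positivity

/-- the number of pairs with a given difference -/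
theorem sum_diff (n : ℕ) (f : ℤ → ℂ) : ∑ i ∈ range n, ∑ j ∈ range n, f ((i : ℤ) - j) =
    ∑ h ∈ Ioo (-(n : ℤ)) n, ((n : ℂ) - |h|) * f h := by
  induction n with
  | zero => simp
  | succ n ih =>
    have h1 : ∑ i ∈ range (n + 1), ∑ j ∈ range (n + 1), f ((i : ℤ) - j) =
        ∑ i ∈ range n, ∑ j ∈ range n, f ((i : ℤ) - j) +
        (∑ i ∈ range n, f ((i : ℤ) - n) + ∑ j ∈ range (n + 1), f ((n : ℤ) - j)) := by
      rw [sum_range_succ]
      simp only [sum_range_succ (fun j => f ((_ : ℤ) - (j : ℕ))) n]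
      have h2 : ∑ i ∈ range n, ∑ j ∈ range (n + 1), f ((i : ℤ) - j) =
          ∑ i ∈ range n, ∑ j ∈ range n, f ((i : ℤ) - j) + ∑ i ∈ range n, f ((i : ℤ) - n) := by
        rw [← sum_add_distrib]
        exact sum_congr rfl fun i _ => sum_range_succ _ _
      first
        | rw [h2]; ring
        | (simp only [sum_add_distrib]; ring)
    have h3 : ∑ h ∈ Ioo (-((n + 1 : ℕ) : ℤ)) ((n + 1 : ℕ) : ℤ), (((n + 1 : ℕ) : ℂ) - |h|) * f h =
        ∑ h ∈ Ioo (-(n : ℤ)) n, ((n : ℂ) - |h|) * f h +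
          ∑ h ∈ Ioo (-((n + 1 : ℕ) : ℤ)) ((n + 1 : ℕ) : ℤ), f h := by
      have h4 : Ioo (-(n : ℤ)) n ⊆ Ioo (-((n + 1 : ℕ) : ℤ)) ((n + 1 : ℕ) : ℤ) :=
        Ioo_subset_Ioo (by push_cast; omega) (by push_cast; omega)
      have h5 : ∑ h ∈ Ioo (-(n : ℤ)) n, ((n : ℂ) - |h|) * f h =
          ∑ h ∈ Ioo (-((n + 1 : ℕ) : ℤ)) ((n + 1 : ℕ) : ℤ), ((n : ℂ) - |h|) * f h := by
        refine sum_subset h4 fun h hh hh' => ?_
        rw [mem_Ioo] at hh hh'
        have h6 : |h| = n := by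
          push_cast at hh
          rcases abs_cases h with h7 | h7 <;> omega
        rw [h6]
        push_cast
        ring
      rw [h5, ← sum_add_distrib]
      refine sum_congr rfl fun h _ => ?_
      push_cast
      ring
    have h8 : ∑ h ∈ Ioo (-((n + 1 : ℕ) : ℤ)) ((n + 1 : ℕ) : ℤ), f h =
        ∑ i ∈ range n, f ((i : ℤ) - n) + ∑ j ∈ range (n + 1), f ((n : ℤ) - j) := by
      have h9 : Ioo (-((n + 1 : ℕ) : ℤ)) ((n + 1 : ℕ) : ℤ) =
          ((range n).image fun i : ℕ => (i : ℤ) - n) ∪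
            ((range (n + 1)).image fun j : ℕ => (n : ℤ) - j) := by
        ext h
        simp only [mem_Ioo, mem_union, mem_image, mem_range]
        constructor
        · rintro ⟨h1, h2⟩
          rcases lt_or_ge h 0 with h3 | h3
          · left
            exact ⟨(h + n).toNat, by omega, by omega⟩
          · right
            exact ⟨(n - h).toNat, by omega, by omega⟩
        · rintro (⟨i, h1, rfl⟩ | ⟨i, h1, rfl⟩) <;> constructor <;> push_cast <;> omega
      rw [h9, sum_union, sum_image, sum_image]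
      · intro i _ j _ h
        simp only at h
        omega
      · intro i _ j _ h
        simp only at h
        omega
      · rw [disjoint_left]
        intro h h1 h2
        rw [mem_image] at h1 h2
        obtain ⟨i, hi, rfl⟩ := h1
        obtain ⟨j, hj, hj2⟩ := h2
        rw [mem_range] at hi hj
        omega
    rw [h1, h3, ih, h8]

/-- the coefficients -/
theorem Fej_eq {N n : ℕ} (hn : 0 < n) (t : ℤ) :
    (Fej N n t : ℂ) = ∑ h ∈ Ioo (-(n : ℤ)) n, (1 - |h| / n : ℂ) * ee N (h * t) := by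
  have hn' : (n : ℂ) ≠ 0 := by exact_mod_cast hn.ne'
  unfold Fej
  push_cast
  rw [← Complex.ofReal_pow, ← Complex.normSq_eq_norm_sq, Complex.normSq_eq_conj_mul_self, map_sum,
    sum_mul_sum, sum_comm]
  have h1 : ∀ i ∈ range n, ∀ j ∈ range n, (starRingEnd ℂ) (ee N (t * j)) * ee N (t * i) =
      ee N (((i : ℤ) - j) * t) := by
    intro i _ j _
    rw [← ee_neg, ← ee_add]
    congr 1
    ring
  have h2 : ∑ i ∈ range n, ∑ j ∈ range n, (starRingEnd ℂ) (ee N (t * j)) * ee N (t * i) =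
      ∑ i ∈ range n, ∑ j ∈ range n, ee N (((i : ℤ) - j) * t) :=
    sum_congr rfl fun i hi => sum_congr rfl fun j hj => h1 i hi j hj
  rw [h2, sum_diff n fun h => ee N (h * t), sum_div]
  refine sum_congr rfl fun h _ => ?_
  field_simp

/-- the mean of the kernel -/
theorem sum_Fej {N n : ℕ} (hn : 0 < n) (hnN : n ≤ N) (d : ℤ) :
    ∑ t ∈ range N, Fej N n (d + t) = N := by
  have h1 : ((∑ t ∈ range N, Fej N n (d + t) : ℝ) : ℂ) = ((N : ℝ) : ℂ) := by
    push_cast
    simp only [Fej_eq hn]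
    rw [sum_comm, sum_eq_single (0 : ℤ)]
    · simp [ee_zero]
    · intro h hh h0
      rw [← mul_sum]
      have h2 : ∑ t ∈ range N, ee N (h * (d + t)) = ee N (h * d) * ∑ t ∈ range N, ee N (h * t) := by
        rw [mul_sum]
        refine sum_congr rfl fun t _ => ?_
        rw [← ee_add]
        congr 1
        ring
      rw [h2, sum_ee_eq_zero (by omega), mul_zero, mul_zero]
      rintro ⟨c, hc⟩
      rw [mem_Ioo] at hh
      have h3 : c ≠ 0 := by
        rintro rfl
        exact h0 (by simpa using hc)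
      have h4 : (N : ℤ) ≤ |h| := by
        rw [hc, abs_mul]
        have h5 : 1 ≤ |c| := Int.one_le_abs h3
        have h6 : |(N : ℤ)| = N := abs_of_nonneg (by positivity)
        rw [h6]
        nlinarith
      have h7 : |h| < n := abs_lt.2 ⟨by omega, hh.2⟩
      omega
    · intro h
      exact absurd (mem_Ioo.2 ⟨by omega, by omega⟩) h
  exact_mod_cast h1

/-- the size of a geometric sum -/
theorem geom_le (N L : ℕ) (t : ℤ) : ‖∑ j ∈ range L, ee N (t * j)‖ * ‖ee N t - 1‖ ≤ 2 := by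
  rw [← norm_mul]
  have h1 : ∑ j ∈ range L, ee N (t * j) = ∑ j ∈ range L, ee N t ^ j :=
    sum_congr rfl fun j _ => (ee_pow N t j).symm
  rw [h1, geom_sum_mul, ee_pow]
  refine (norm_sub_le _ _).trans ?_
  rw [norm_ee, norm_one]
  norm_num

theorem Fej_chord {N n : ℕ} (hn : 0 < n) (t : ℤ) : Fej N n t * ‖ee N t - 1‖ ^ 2 ≤ 4 / n := by
  have h1 := geom_le N n t
  have h2 : (‖∑ j ∈ range n, ee N (t * j)‖ * ‖ee N t - 1‖) ^ 2 ≤ 2 ^ 2 :=
    pow_le_pow_left₀ (by positivity) h1 2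
  have hn' : (0 : ℝ) < n := by exact_mod_cast hn
  unfold Fej
  rw [div_mul_eq_mul_div]
  refine div_le_div_of_nonneg_right ?_ hn'.le
  rw [← mul_pow]
  linarith

/-- the chord and the arc -/
theorem chord_ge {N : ℕ} (hN : 0 < N) {t : ℤ} (ht : 2 * |t| ≤ N) :
    4 * |(t : ℝ)| / N ≤ ‖ee N t - 1‖ := by
  have hN' : (0 : ℝ) < N := by exact_mod_cast hN
  have h1 : ee N t = Complex.exp (Complex.I * ((2 * Real.pi * (t / N) : ℝ) : ℂ)) := by
    unfold ee
    congr 1
    push_cast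
    ring
  rw [h1, Complex.norm_exp_I_mul_ofReal_sub_one, Real.norm_eq_abs, abs_mul,
    abs_of_pos (by norm_num : (0 : ℝ) < 2)]
  have h2 : 2 * Real.pi * ((t : ℝ) / N) / 2 = Real.pi * (t / N) := by ring
  rw [h2]
  have h3 : |Real.sin (Real.pi * (t / N))| = Real.sin (Real.pi * (|(t : ℝ)| / N)) := by
    have h4 : ((|t| : ℤ) : ℝ) * 2 ≤ N := by
      have : |t| * 2 ≤ N := by omega
      exact_mod_cast this
    rw [Int.cast_abs] at h4
    have h5 : 0 ≤ Real.sin (Real.pi * (|(t : ℝ)| / N)) := by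
      refine Real.sin_nonneg_of_nonneg_of_le_pi (by positivity) ?_
      have : |(t : ℝ)| / N ≤ 1 := by rw [div_le_one hN']; linarith [abs_nonneg (t : ℝ)]
      nlinarith [Real.pi_pos]
    rcases abs_cases (t : ℝ) with ⟨h6, _⟩ | ⟨h6, _⟩
    · rw [h6] at h5 ⊢
      exact abs_of_nonneg h5
    · rw [h6] at h5 ⊢
      have h7 : Real.pi * (-(t : ℝ) / N) = -(Real.pi * (t / N)) := by ring
      rw [h7, Real.sin_neg] at h5 ⊢
      exact abs_of_nonpos (by linarith)
  rw [h3]
  have h4 : ((|t| : ℤ) : ℝ) * 2 ≤ N := by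
    have : |t| * 2 ≤ N := by omega
    exact_mod_cast this
  rw [Int.cast_abs] at h4
  have h8 := Real.mul_le_sin (x := Real.pi * (|(t : ℝ)| / N)) (by positivity) (by
    have : |(t : ℝ)| / N ≤ 1 / 2 := by rw [div_le_iff₀ hN']; linarith
    nlinarith [Real.pi_pos])
  have h9 : 2 / Real.pi * (Real.pi * (|(t : ℝ)| / N)) = 2 * (|(t : ℝ)| / N) := by
    field_simp
  rw [h9] at h8
  have h10 : 4 * |(t : ℝ)| / N = 2 * (2 * (|(t : ℝ)| / N)) := by ring
  rw [h10]
  linarith

/-- the representative of smallest absolute value -/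
def rp (N t : ℕ) : ℤ := if 2 * t ≤ N then (t : ℤ) else (t : ℤ) - N

theorem rp_abs {N t : ℕ} (ht : t < N) : 2 * |rp N t| ≤ N := by
  unfold rp
  split_ifs with h
  · rw [abs_of_nonneg (by positivity)]
    omega
  · rw [abs_of_nonpos (by omega)]
    omega

theorem ee_period {N : ℕ} (hN : 0 < N) (c : ℤ) : ee N (c * N) = 1 := by
  unfold ee
  have hN' : (N : ℂ) ≠ 0 := by exact_mod_cast hN.ne'
  rw [Complex.exp_eq_one_iff]
  refine ⟨c, ?_⟩
  push_cast
  field_simp

theorem ee_rp {N : ℕ} (hN : 0 < N) (h : ℤ) (t : ℕ) : ee N (h * rp N t) = ee N (h * t) := by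
  unfold rp
  split_ifs with h1
  · rfl
  · have h2 : h * ((t : ℤ) - N) = h * t + (-h) * N := by ring
    rw [h2, ee_add, ee_period hN, mul_one]

theorem Fej_congr {N : ℕ} (hN : 0 < N) (n : ℕ) {s t : ℤ} (h : (N : ℤ) ∣ s - t) :
    Fej N n s = Fej N n t := by
  obtain ⟨c, hc⟩ := h
  unfold Fej
  congr 3
  refine sum_congr rfl fun j _ => ?_
  have h1 : s * j = t * j + (c * j) * N := by
    have : s = t + N * c := by linarith
    rw [this]
    ring
  rw [h1, ee_add, ee_period hN, mul_one]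

theorem rp_dvd (N t : ℕ) : (N : ℤ) ∣ rp N t - t := by
  unfold rp
  split_ifs
  · simp
  · exact ⟨-1, by ring⟩

/-- the first moment of the kernel -/
theorem moment {N n : ℕ} (hn : 0 < n) (hnN : n ≤ N) :
    ∑ t ∈ range N, Fej N n t * |(rp N t : ℝ)| ≤ (N : ℝ) ^ 2 / (2 * √n) := by
  have hN : 0 < N := by omega
  have hN' : (0 : ℝ) < N := by exact_mod_cast hN
  have hn' : (0 : ℝ) < n := by exact_mod_cast hn
  have h1 : ∀ t ∈ range N, Fej N n t * |(rp N t : ℝ)| ≤
      N / 4 * (√(Fej N n t) * (√(Fej N n t) * ‖ee N t - 1‖)) := by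
    intro t ht
    rw [mem_range] at ht
    have h2 := chord_ge hN (rp_abs ht)
    have h3 : ee N (rp N t) = ee N t := by
      have := ee_rp hN 1 t
      simpa using this
    rw [h3, div_le_iff₀ hN'] at h2
    have h4 : √(Fej N n t) * (√(Fej N n t) * ‖ee N t - 1‖) = Fej N n t * ‖ee N t - 1‖ := by
      rw [← mul_assoc, Real.mul_self_sqrt (Fej_nonneg _ _ _)]
    rw [h4]
    have h5 := mul_le_mul_of_nonneg_left h2 (Fej_nonneg N n t)
    nlinarith
  have h6 := sum_mul_sq_le_sq_mul_sq (range N) (fun t : ℕ => √(Fej N n t))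
    (fun t : ℕ => √(Fej N n t) * ‖ee N t - 1‖)
  have h7 : ∑ t ∈ range N, √(Fej N n t) ^ 2 = N := by
    have := sum_Fej hn hnN 0
    simp only [zero_add] at this
    rw [← this]
    exact sum_congr rfl fun t _ => Real.sq_sqrt (Fej_nonneg _ _ _)
  have h8 : ∑ t ∈ range N, (√(Fej N n t) * ‖ee N t - 1‖) ^ 2 ≤ N * (4 / n) := by
    have h9 : ∀ t ∈ range N, (√(Fej N n t) * ‖ee N t - 1‖) ^ 2 ≤ 4 / n := by
      intro t _
      rw [mul_pow, Real.sq_sqrt (Fej_nonneg _ _ _)]
      exact Fej_chord hn t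
    refine (sum_le_sum h9).trans_eq ?_
    rw [sum_const, card_range, nsmul_eq_mul]
  rw [h7] at h6
  have h10 : (∑ t ∈ range N, √(Fej N n t) * (√(Fej N n t) * ‖ee N t - 1‖)) ^ 2 ≤
      (2 * N / √n) ^ 2 := by
    refine h6.trans ((mul_le_mul_of_nonneg_left h8 hN'.le).trans_eq ?_)
    rw [div_pow, Real.sq_sqrt hn'.le]
    ring
  have h11 := abs_le_of_sq_le_sq h10 (by positivity)
  refine (sum_le_sum h1).trans ?_
  rw [← mul_sum]
  have h12 := (abs_le.1 h11).2
  have hs : 0 < √(n : ℝ) := Real.sqrt_pos.2 hn'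
  calc (N : ℝ) / 4 * ∑ t ∈ range N, √(Fej N n t) * (√(Fej N n t) * ‖ee N t - 1‖)
      ≤ N / 4 * (2 * N / √n) := mul_le_mul_of_nonneg_left h12 (by positivity)
    _ = (N : ℝ) ^ 2 / (2 * √n) := by
        field_simp
        ring

end Pool.Agent.Helper81.FP
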