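import Pool.Agent.Helper81.FP.Fejer

/-!
Dyadic pieces of a smooth majorant of an arc of the integers modulo `N`.
-/

set_option autoImplicit false

open Finset

namespace Pool.Agent.Helper81.FP

open Pool.Agent.Helper16.NM (ee ee_zero ee_add norm_ee ee_neg ee_pow sum_ee_eq_zero)

/-- the integer `m` is in the arc `a, a + 1, …, a + w - 1` modulo `N` -/
def InArc (N : ℕ) (a : ℤ) (w : ℕ) (m : ℤ) : Prop := ∃ r < w, (N : ℤ) ∣ m - (a + (r : ℕ))

/-- the coefficients of the smoothed arc -/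
noncomputable def hatc (N : ℕ) (a : ℤ) (w k : ℕ) (h : ℤ) : ℂ :=
  1 / ((k : ℂ) * N) * ((∑ i ∈ range k, ee N (h * i)) * ∑ j ∈ range (w + k), ee N (-h * (a + j)))

/-- the Fejer means of the smoothed arc -/
noncomputable def sig (N : ℕ) (a : ℤ) (w k n : ℕ) (m : ℤ) : ℝ :=
  1 / ((k : ℝ) * N) * ∑ i ∈ range k, ∑ j ∈ range (w + k), Fej N n (m + i - (a + j))

theorem sig_eq (N : ℕ) (a : ℤ) (w k : ℕ) {n : ℕ} (hn : 0 < n) (m : ℤ) :
    (sig N a w k n m : ℂ) = ∑ h ∈ Ioo (-(n : ℤ)) n, (1 - |h| / n : ℂ) *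
      (hatc N a w k h * ee N (h * m)) := by
  unfold sig hatc
  push_cast
  simp only [Fej_eq hn]
  have h1 : ∀ i ∈ range k, ∑ j ∈ range (w + k), ∑ h ∈ Ioo (-(n : ℤ)) n,
      (1 - |h| / n : ℂ) * ee N (h * (m + i - (a + j))) =
      ∑ h ∈ Ioo (-(n : ℤ)) n, ∑ j ∈ range (w + k),
      (1 - |h| / n : ℂ) * ee N (h * (m + i - (a + j))) := fun i _ => sum_comm
  rw [sum_congr rfl h1, sum_comm, mul_sum]
  refine sum_congr rfl fun h _ => ?_
  have h2 : ∀ i ∈ range k, ∀ j ∈ range (w + k), (1 - |h| / n : ℂ) * ee N (h * (m + i - (a + j))) =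
      (1 - |h| / n : ℂ) * ee N (h * m) * (ee N (h * i) * ee N (-h * (a + j))) := by
    intro i _ j _
    have h3 : h * (m + i - (a + j)) = h * m + (h * i + -h * (a + j)) := by ring
    rw [h3, ee_add, ee_add]
    ring
  rw [sum_congr rfl fun i hi => sum_congr rfl fun j hj => h2 i hi j hj]
  simp only [← mul_sum]
  rw [← sum_mul]
  ring

theorem sig_nonneg (N : ℕ) (a : ℤ) (w k n : ℕ) (m : ℤ) : 0 ≤ sig N a w k n m := by
  unfold sig
  exact mul_nonneg (by positivity) (sum_nonneg fun i _ => sum_nonneg fun j _ => Fej_nonneg _ _ _)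

theorem Fej_neg (N n : ℕ) (t : ℤ) : Fej N n (-t) = Fej N n t := by
  unfold Fej
  congr 2
  have h1 : ∑ j ∈ range n, ee N (-t * j) = (starRingEnd ℂ) (∑ j ∈ range n, ee N (t * j)) := by
    rw [map_sum]
    refine sum_congr rfl fun j _ => ?_
    rw [← ee_neg]
    congr 1
    ring
  rw [h1, RCLike.norm_conj]

theorem sig_le {N : ℕ} (a : ℤ) {w k n : ℕ} (hn : 0 < n) (hnN : n ≤ N) (hk : 0 < k)
    (hw : w + k ≤ 2 * N) (m : ℤ) : sig N a w k n m ≤ 2 := by
  have hN : 0 < N := by omega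
  have hN' : (0 : ℝ) < N := by exact_mod_cast hN
  have hk' : (0 : ℝ) < k := by exact_mod_cast hk
  have h1 : ∀ i ∈ range k, ∑ j ∈ range (w + k), Fej N n (m + i - (a + j)) ≤ 2 * N := by
    intro i _
    have h2 : ∑ j ∈ range (w + k), Fej N n (m + i - (a + j)) ≤
        ∑ j ∈ range (N + N), Fej N n (m + i - (a + j)) :=
      sum_le_sum_of_subset_of_nonneg (range_subset_range.2 (by omega))
        fun _ _ _ => Fej_nonneg _ _ _
    have h2' := sum_range_add (fun j : ℕ => Fej N n (m + i - (a + j))) N N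
    have h3 : ∀ c : ℤ, ∑ j ∈ range N, Fej N n (c - j) = N := by
      intro c
      rw [← sum_Fej hn hnN (-c)]
      refine sum_congr rfl fun j _ => ?_
      rw [← Fej_neg]
      congr 1
      ring
    have h4 : ∑ j ∈ range N, Fej N n (m + i - (a + j)) = N := by
      rw [← h3 (m + i - a)]
      refine sum_congr rfl fun j _ => ?_
      congr 1
      ring
    have h5 : ∑ j ∈ range N, Fej N n (m + i - (a + ((N + j : ℕ) : ℤ))) = N := by
      rw [← h3 (m + i - a - N)]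
      refine sum_congr rfl fun j _ => ?_
      congr 1
      push_cast
      ring
    rw [h2', h4, h5] at h2
    linarith
  unfold sig
  refine (mul_le_mul_of_nonneg_left (sum_le_sum h1) (by positivity)).trans_eq ?_
  rw [sum_const, card_range, nsmul_eq_mul]
  field_simp

theorem sig_lower {N : ℕ} (a : ℤ) {w k n : ℕ} (hn : 0 < n) (hnN : n ≤ N) (hk : 0 < k) {m : ℤ}
    (hm : InArc N a w m) : 1 - N / (2 * k * √n) ≤ sig N a w k n m := by
  have hN : 0 < N := by omega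
  have hN' : (0 : ℝ) < N := by exact_mod_cast hN
  have hk' : (0 : ℝ) < k := by exact_mod_cast hk
  have hs : 0 < √(n : ℝ) := Real.sqrt_pos.2 (by exact_mod_cast hn)
  obtain ⟨r, hr, hd⟩ := hm
  have h0 : ∀ i j : ℕ, Fej N n (m + i - (a + j)) = Fej N n ((r : ℤ) + i - j) := by
    intro i j
    refine Fej_congr hN n ?_
    have : m + i - (a + j) - ((r : ℤ) + i - j) = m - (a + r) := by ring
    rw [this]
    exact hd
  classical
  have h1 : ∀ i ∈ range k, ∑ t ∈ (range N).filter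
      (fun t => 0 ≤ (r : ℤ) + i - rp N t ∧ (r : ℤ) + i - rp N t < w + k), Fej N n t ≤
      ∑ j ∈ range (w + k), Fej N n ((r : ℤ) + i - j) := by
    intro i _
    have hinj : Set.InjOn (fun t : ℕ => ((r : ℤ) + i - rp N t).toNat) ((range N).filter
      (fun t => 0 ≤ (r : ℤ) + i - rp N t ∧ (r : ℤ) + i - rp N t < w + k) : Finset ℕ) := by
      intro s hs t ht hst
      rw [mem_coe, mem_filter, mem_range] at hs ht
      simp only at hst
      have h2 : rp N s = rp N t := by omega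
      have h3 := rp_dvd N s
      have h4 := rp_dvd N t
      rw [h2] at h3
      have h5 : (N : ℤ) ∣ (s : ℤ) - t := by
        have := dvd_sub h4 h3
        have e1 : rp N t - (t : ℤ) - (rp N t - s) = s - t := by ring
        rwa [e1] at this
      obtain ⟨c, hc⟩ := h5
      have h6 : c = 0 := by
        by_contra hne
        have h7 : 1 ≤ |c| := Int.one_le_abs hne
        have h8 : |(s : ℤ) - t| < N := abs_lt.2 ⟨by omega, by omega⟩
        rw [hc, abs_mul, abs_of_nonneg (by positivity : (0 : ℤ) ≤ N)] at h8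
        nlinarith
      rw [h6, mul_zero] at hc
      omega
    have h2 : ∑ t ∈ (range N).filter
      (fun t => 0 ≤ (r : ℤ) + i - rp N t ∧ (r : ℤ) + i - rp N t < w + k), Fej N n t =
      ∑ j ∈ ((range N).filter
      (fun t => 0 ≤ (r : ℤ) + i - rp N t ∧ (r : ℤ) + i - rp N t < w + k)).image
        (fun t : ℕ => ((r : ℤ) + i - rp N t).toNat), Fej N n ((r : ℤ) + i - j) := by
      rw [sum_image hinj]
      refine sum_congr rfl fun t ht => ?_
      rw [mem_filter] at ht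
      rw [Int.toNat_of_nonneg ht.2.1]
      have e1 : (r : ℤ) + i - ((r : ℤ) + i - rp N t) = rp N t := by ring
      rw [e1]
      exact (Fej_congr hN n (rp_dvd N t)).symm
    rw [h2]
    refine sum_le_sum_of_subset_of_nonneg ?_ fun _ _ _ => Fej_nonneg _ _ _
    intro j hj
    rw [mem_image] at hj
    obtain ⟨t, ht, rfl⟩ := hj
    rw [mem_filter] at ht
    rw [mem_range]
    omega
  have h2 : ∑ t ∈ range N, Fej N n t * ((k : ℝ) - |(rp N t : ℝ)|) ≤
      ∑ i ∈ range k, ∑ t ∈ (range N).filter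
        (fun t => 0 ≤ (r : ℤ) + i - rp N t ∧ (r : ℤ) + i - rp N t < w + k), Fej N n t := by
    simp only [sum_filter]
    rw [sum_comm]
    refine sum_le_sum fun t _ => ?_
    rw [← sum_filter, sum_const, nsmul_eq_mul, mul_comm]
    refine mul_le_mul_of_nonneg_right ?_ (Fej_nonneg _ _ _)
    rcases le_or_gt 0 (rp N t) with h3 | h3
    · obtain ⟨τ, hτ⟩ := Int.eq_ofNat_of_zero_le h3
      rw [hτ]
      have h4 : Ico τ k ⊆ (range k).filter
          (fun i : ℕ => 0 ≤ (r : ℤ) + i - ((τ : ℕ) : ℤ) ∧ (r : ℤ) + i - ((τ : ℕ) : ℤ) < w + k) := by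
        intro i hi
        rw [mem_Ico] at hi
        rw [mem_filter, mem_range]
        omega
      have h5 := card_le_card h4
      rw [Nat.card_Ico] at h5
      have h6 : k ≤ #((range k).filter (fun i : ℕ => 0 ≤ (r : ℤ) + i - ((τ : ℕ) : ℤ) ∧
          (r : ℤ) + i - ((τ : ℕ) : ℤ) < w + k)) + τ := by omega
      have h7 : (k : ℝ) ≤ #((range k).filter (fun i : ℕ => 0 ≤ (r : ℤ) + i - ((τ : ℕ) : ℤ) ∧
          (r : ℤ) + i - ((τ : ℕ) : ℤ) < w + k)) + τ := by exact_mod_cast h6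
      have h8 : |(((τ : ℕ) : ℤ) : ℝ)| = τ := by
        rw [Int.cast_natCast, abs_of_nonneg (Nat.cast_nonneg _)]
      rw [h8]
      linarith
    · obtain ⟨τ, hτ⟩ := Int.eq_ofNat_of_zero_le (by omega : 0 ≤ -rp N t)
      have hτ' : rp N t = -(τ : ℤ) := by omega
      rw [hτ']
      have h4 : range (k - τ) ⊆ (range k).filter
          (fun i : ℕ => 0 ≤ (r : ℤ) + i - -(τ : ℤ) ∧ (r : ℤ) + i - -(τ : ℤ) < w + k) := by
        intro i hi
        rw [mem_range] at hi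
        rw [mem_filter, mem_range]
        omega
      have h5 := card_le_card h4
      rw [card_range] at h5
      have h6 : k ≤ #((range k).filter (fun i : ℕ => 0 ≤ (r : ℤ) + i - -(τ : ℤ) ∧
          (r : ℤ) + i - -(τ : ℤ) < w + k)) + τ := by omega
      have h7 : (k : ℝ) ≤ #((range k).filter (fun i : ℕ => 0 ≤ (r : ℤ) + i - -(τ : ℤ) ∧
          (r : ℤ) + i - -(τ : ℤ) < w + k)) + τ := by exact_mod_cast h6
      have h8 : |((-(τ : ℤ) : ℤ) : ℝ)| = τ := by
        rw [Int.cast_neg, Int.cast_natCast, abs_neg, abs_of_nonneg (Nat.cast_nonneg _)]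
      rw [h8]
      linarith
  have h3 := sum_le_sum h1
  have h4 : ∑ t ∈ range N, Fej N n t * ((k : ℝ) - |(rp N t : ℝ)|) =
      k * N - ∑ t ∈ range N, Fej N n t * |(rp N t : ℝ)| := by
    simp only [mul_sub, sum_sub_distrib]
    congr 1
    rw [← sum_mul]
    have := sum_Fej hn hnN 0
    simp only [zero_add] at this
    rw [this]
    ring
  have h5 := moment hn hnN
  have h6 : (k : ℝ) * N - (N : ℝ) ^ 2 / (2 * √n) ≤
      ∑ i ∈ range k, ∑ j ∈ range (w + k), Fej N n ((r : ℤ) + i - j) := by linarith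
  unfold sig
  simp only [h0]
  calc 1 - N / (2 * k * √n) = 1 / ((k : ℝ) * N) * ((k : ℝ) * N - (N : ℝ) ^ 2 / (2 * √n)) := by
        field_simp
    _ ≤ _ := mul_le_mul_of_nonneg_left h6 (by positivity)

/-- the weights of the Fejer mean -/
noncomputable def wgt (n : ℕ) (h : ℤ) : ℝ := max 0 (1 - |(h : ℝ)| / n)

theorem wgt_zero (n : ℕ) : wgt n 0 = 1 := by simp [wgt]

theorem wgt_of_le {n : ℕ} (hn : 0 < n) {h : ℤ} (hh : (n : ℤ) ≤ |h|) : wgt n h = 0 := by
  unfold wgt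
  have hn' : (0 : ℝ) < n := by exact_mod_cast hn
  have h1 : (n : ℝ) ≤ |(h : ℝ)| := by
    have : ((n : ℤ) : ℝ) ≤ ((|h| : ℤ) : ℝ) := by exact_mod_cast hh
    rwa [Int.cast_abs, Int.cast_natCast] at this
  refine max_eq_left ?_
  have : 1 ≤ |(h : ℝ)| / n := by rwa [le_div_iff₀ hn', one_mul]
  linarith

theorem wgt_of_lt {n : ℕ} (hn : 0 < n) {h : ℤ} (hh : |h| ≤ (n : ℤ)) :
    wgt n h = 1 - |(h : ℝ)| / n := by
  unfold wgt
  have hn' : (0 : ℝ) < n := by exact_mod_cast hn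
  have h1 : |(h : ℝ)| ≤ (n : ℝ) := by
    have : ((|h| : ℤ) : ℝ) ≤ ((n : ℤ) : ℝ) := by exact_mod_cast hh
    rwa [Int.cast_abs, Int.cast_natCast] at this
  refine max_eq_right ?_
  have : |(h : ℝ)| / n ≤ 1 := by rwa [div_le_iff₀ hn', one_mul]
  linarith

theorem sig_eq' (N : ℕ) (a : ℤ) (w k : ℕ) {n n' : ℕ} (hn : 0 < n) (hnn : n ≤ n') (m : ℤ) :
    (sig N a w k n m : ℂ) = ∑ h ∈ Ioo (-(n' : ℤ)) n', (wgt n h : ℂ) *
      (hatc N a w k h * ee N (h * m)) := by
  rw [sig_eq N a w k hn m]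
  have h1 : Ioo (-(n : ℤ)) n ⊆ Ioo (-(n' : ℤ)) n' :=
    Ioo_subset_Ioo (by omega) (by omega)
  rw [← sum_subset h1 fun h _ hh' => ?_]
  · refine sum_congr rfl fun h hh => ?_
    rw [mem_Ioo] at hh
    have h2 : ((|h| : ℤ) : ℂ) = ((|(h : ℝ)| : ℝ) : ℂ) := by
      rw [← Int.cast_abs, Complex.ofReal_intCast]
    rw [wgt_of_lt hn (abs_lt.2 ⟨hh.1, hh.2⟩).le, h2]
    push_cast
    rfl
  · rw [mem_Ioo] at hh'
    have h2 : (n : ℤ) ≤ |h| := by
      by_contra hlt
      push Not at hlt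
      have := abs_lt.1 hlt
      exact hh' ⟨this.1, this.2⟩
    rw [wgt_of_le hn h2]
    simp

theorem hatc_le {N : ℕ} (hN : 0 < N) (a : ℤ) (w : ℕ) {k : ℕ} (hk : 0 < k) {h : ℤ} (h0 : h ≠ 0)
    (hh : 2 * |h| ≤ N) : ‖hatc N a w k h‖ ≤ 1 / (2 * |(h : ℝ)|) := by
  have hN' : (0 : ℝ) < N := by exact_mod_cast hN
  have hk' : (0 : ℝ) < k := by exact_mod_cast hk
  have hh0 : 0 < |(h : ℝ)| := abs_pos.2 (by exact_mod_cast h0)
  have h1 : ‖∑ i ∈ range k, ee N (h * i)‖ ≤ k := by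
    refine (norm_sum_le _ _).trans_eq ?_
    simp [norm_ee]
  have h2 : ∑ j ∈ range (w + k), ee N (-h * (a + j)) =
      ee N (-h * a) * ∑ j ∈ range (w + k), ee N (-h * j) := by
    rw [mul_sum]
    refine sum_congr rfl fun j _ => ?_
    rw [← ee_add]
    congr 1
    ring
  have h3 := geom_le N (w + k) (-h)
  have h4 := chord_ge hN (t := -h) (by rw [abs_neg]; exact hh)
  rw [Int.cast_neg, abs_neg, div_le_iff₀ hN'] at h4
  have h5 : ‖∑ j ∈ range (w + k), ee N (-h * (a + j))‖ ≤ N / (2 * |(h : ℝ)|) := by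
    rw [h2, norm_mul, norm_ee, one_mul, le_div_iff₀ (by positivity)]
    have h6 := norm_nonneg (∑ j ∈ range (w + k), ee N (-h * j))
    nlinarith [mul_le_mul_of_nonneg_left h4 h6, mul_le_mul_of_nonneg_right h3 hN'.le]
  unfold hatc
  rw [norm_mul, norm_mul, norm_div, norm_one, norm_mul, Complex.norm_natCast, Complex.norm_natCast]
  calc 1 / ((k : ℝ) * N) * (‖∑ i ∈ range k, ee N (h * i)‖ *
        ‖∑ j ∈ range (w + k), ee N (-h * (a + j))‖)
      ≤ 1 / ((k : ℝ) * N) * (k * (N / (2 * |(h : ℝ)|))) :=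
        mul_le_mul_of_nonneg_left (mul_le_mul h1 h5 (norm_nonneg _) hk'.le) (by positivity)
    _ = 1 / (2 * |(h : ℝ)|) := by field_simp

/-- the coefficients of the piece `s` -/
noncomputable def cof (N : ℕ) (a : ℤ) (w k s : ℕ) (h : ℤ) : ℂ :=
  ((wgt (2 ^ s) h - wgt (2 ^ (s - 1)) h : ℝ) : ℂ) * hatc N a w k h

/-- the piece `s` -/
noncomputable def pc (N : ℕ) (a : ℤ) (w k s : ℕ) (m : ℤ) : ℝ :=
  sig N a w k (2 ^ s) m - sig N a w k (2 ^ (s - 1)) m

theorem pc_eq (N : ℕ) (a : ℤ) (w k s : ℕ) (m : ℤ) : (pc N a w k s m : ℂ) =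
    ∑ h ∈ Ioo (-(2 ^ s : ℤ)) (2 ^ s), cof N a w k s h * ee N (h * m) := by
  unfold pc cof
  have h1 := sig_eq' N a w k (n := 2 ^ s) (n' := 2 ^ s) (by positivity) le_rfl m
  have h2 := sig_eq' N a w k (n := 2 ^ (s - 1)) (n' := 2 ^ s) (by positivity)
    (Nat.pow_le_pow_right (by norm_num) (by omega)) m
  push_cast at h1 h2 ⊢
  rw [h1, h2, ← sum_sub_distrib]
  refine sum_congr rfl fun h _ => ?_
  ring

theorem cof_zero (N : ℕ) (a : ℤ) (w k s : ℕ) : cof N a w k s 0 = 0 := by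
  simp [cof, wgt_zero]

theorem cof_supp (N : ℕ) (a : ℤ) (w k s : ℕ) {h : ℤ} (hh : 2 ^ s ≤ |h|) : cof N a w k s h = 0 := by
  unfold cof
  have h1 : (2 : ℤ) ^ (s - 1) ≤ 2 ^ s := pow_le_pow_right₀ (by norm_num) (by omega)
  rw [wgt_of_le (by positivity) (by push_cast; exact hh),
    wgt_of_le (by positivity) (by push_cast; omega)]
  simp

theorem cof_conj (N : ℕ) (a : ℤ) (w k s : ℕ) (h : ℤ) :
    cof N a w k s (-h) = (starRingEnd ℂ) (cof N a w k s h) := by
  unfold cof hatc wgt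
  simp only [map_mul, map_sum, Complex.conj_ofReal, map_div₀, map_one, map_natCast, ← ee_neg,
    Int.cast_neg, abs_neg]
  congr 3
  · refine sum_congr rfl fun i _ => ?_
    congr 1
    ring
  · refine sum_congr rfl fun i _ => ?_
    congr 1
    ring

theorem cof_le {N : ℕ} (a : ℤ) (w : ℕ) {k s : ℕ} (hk : 0 < k) (hs : 1 ≤ s)
    (hN : 2 ^ (s + 1) ≤ N) (h : ℤ) : ‖cof N a w k s h‖ ≤ 1 / 2 / 2 ^ s := by
  have hN0 : 0 < N := lt_of_lt_of_le (by positivity) hN
  rcases eq_or_ne h 0 with rfl | h0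
  · rw [cof_zero, norm_zero]
    positivity
  rcases le_or_gt (2 ^ s) |h| with h1 | h1
  · rw [cof_supp _ _ _ _ _ h1, norm_zero]
    positivity
  have hh0 : 0 < |(h : ℝ)| := abs_pos.2 (by exact_mod_cast h0)
  have hN2 : ((2 : ℤ)) ^ s * 2 ≤ N := by
    have : ((2 ^ (s + 1) : ℕ) : ℤ) ≤ N := by exact_mod_cast hN
    push_cast at this
    rwa [pow_succ] at this
  have h2 := hatc_le hN0 a w hk h0 (by omega)
  have hss : (2 : ℝ) ^ s = 2 * 2 ^ (s - 1) := by
    rw [← pow_succ']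
    congr 1
    omega
  have h3 : |wgt (2 ^ s) h - wgt (2 ^ (s - 1)) h| ≤ |(h : ℝ)| / 2 ^ s := by
    have h4 : wgt (2 ^ s) h = 1 - |(h : ℝ)| / 2 ^ s := by
      rw [wgt_of_lt (by positivity) (by push_cast; exact h1.le)]
      push_cast
      rfl
    rcases le_or_gt |h| (2 ^ (s - 1)) with h5 | h5
    · have h6 : wgt (2 ^ (s - 1)) h = 1 - |(h : ℝ)| / 2 ^ (s - 1) := by
        rw [wgt_of_lt (by positivity) (by push_cast; exact h5)]
        push_cast
        rfl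
      rw [h4, h6]
      have h7 : 1 - |(h : ℝ)| / 2 ^ s - (1 - |(h : ℝ)| / 2 ^ (s - 1)) = |(h : ℝ)| / 2 ^ s := by
        rw [hss]
        field_simp
        ring
      rw [h7, abs_of_nonneg (by positivity)]
    · have h6 : wgt (2 ^ (s - 1)) h = 0 := wgt_of_le (by positivity) (by push_cast; exact h5.le)
      have h7 : (2 : ℝ) ^ (s - 1) ≤ |(h : ℝ)| := by
        have : (((2 : ℤ) ^ (s - 1) : ℤ) : ℝ) ≤ ((|h| : ℤ) : ℝ) := by exact_mod_cast h5.le
        rw [Int.cast_abs] at this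
        push_cast at this
        exact this
      have h8 : |(h : ℝ)| ≤ 2 ^ s := by
        have : ((|h| : ℤ) : ℝ) ≤ (((2 : ℤ) ^ s : ℤ) : ℝ) := by exact_mod_cast h1.le
        rw [Int.cast_abs] at this
        push_cast at this
        exact this
      have hp : (0 : ℝ) < 2 ^ s := by positivity
      rw [h4, h6, sub_zero, abs_of_nonneg]
      · have h9 : 1 ≤ |(h : ℝ)| / 2 ^ s + |(h : ℝ)| / 2 ^ s := by
          rw [← add_div, le_div_iff₀ hp]
          linarith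
        linarith
      · have : |(h : ℝ)| / 2 ^ s ≤ 1 := by rwa [div_le_one hp]
        linarith
  unfold cof
  rw [norm_mul, Complex.norm_real, Real.norm_eq_abs]
  calc |wgt (2 ^ s) h - wgt (2 ^ (s - 1)) h| * ‖hatc N a w k h‖
      ≤ |(h : ℝ)| / 2 ^ s * (1 / (2 * |(h : ℝ)|)) :=
        mul_le_mul h3 h2 (norm_nonneg _) (by positivity)
    _ = 1 / 2 / 2 ^ s := by field_simp

theorem sum_pc (N : ℕ) (a : ℤ) (w k S : ℕ) (m : ℤ) :
    ∑ s ∈ Icc 1 S, pc N a w k s m = sig N a w k (2 ^ S) m - sig N a w k 1 m := by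
  induction S with
  | zero => simp
  | succ S ih =>
    rw [sum_Icc_succ_top (by omega), ih]
    unfold pc
    rw [Nat.add_sub_cancel]
    ring

theorem sig_one {N : ℕ} (hN : 0 < N) (a : ℤ) (w : ℕ) {k : ℕ} (hk : 0 < k) (m : ℤ) :
    sig N a w k 1 m = (w + k) / N := by
  have hN' : (N : ℝ) ≠ 0 := by exact_mod_cast hN.ne'
  have hk' : (k : ℝ) ≠ 0 := by exact_mod_cast hk.ne'
  unfold sig Fej
  simp only [range_one, sum_singleton, Nat.cast_zero, mul_zero, ee_zero, norm_one, one_pow,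
    Nat.cast_one, div_one, sum_const, card_range, nsmul_eq_mul, mul_one]
  push_cast
  field_simp

/-- DYADIC PIECES OF A MAJORANT OF AN ARC. -/
theorem pieces {N : ℕ} (a : ℤ) {w r : ℕ} (hw : w ≤ N) (hr : 2 ^ (4 * r + 1) ≤ N) :
    ∃ (c : ℕ → ℤ → ℂ) (T : ℕ → ℤ → ℝ),
      (∀ s, c s 0 = 0) ∧ (∀ s h, 2 ^ s ≤ |h| → c s h = 0) ∧
      (∀ s h, c s (-h) = (starRingEnd ℂ) (c s h)) ∧
      (∀ s ∈ Icc 1 (4 * r), ∀ h, ‖c s h‖ ≤ 1 / 2 / 2 ^ s) ∧
      (∀ s m, (T s m : ℂ) = ∑ h ∈ Ioo (-(2 ^ s : ℤ)) (2 ^ s), c s h * ee N (h * m)) ∧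
      (∀ s ∈ Icc 1 (4 * r), ∀ m, |T s m| ≤ 2) ∧
      (∀ m, 0 ≤ (w : ℝ) / N + 2 / 2 ^ r + ∑ s ∈ Icc 1 (4 * r), T s m) ∧
      ∀ m, InArc N a w m → 1 ≤ (w : ℝ) / N + 2 / 2 ^ r + ∑ s ∈ Icc 1 (4 * r), T s m := by
  have hN : 0 < N := lt_of_lt_of_le (by positivity) hr
  have hN' : (0 : ℝ) < N := by exact_mod_cast hN
  obtain ⟨k, hk⟩ : ∃ k, k = N / 2 ^ r + 1 := ⟨_, rfl⟩
  have hk0 : 0 < k := hk ▸ Nat.succ_pos _
  have hk' : (0 : ℝ) < k := by exact_mod_cast hk0
  have hp : (0 : ℝ) < 2 ^ r := by positivity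
  have hk1 : (N : ℝ) / 2 ^ r ≤ k := by
    rw [div_le_iff₀ hp]
    have h1 := Nat.lt_div_mul_add (a := N) (b := 2 ^ r) (by positivity)
    have h2 : N ≤ k * 2 ^ r := by
      rw [hk, Nat.add_mul, one_mul]
      omega
    exact_mod_cast h2
  have hk2 : (k : ℝ) ≤ N / 2 ^ r + 1 := by
    rw [hk]
    push_cast
    have := @Nat.cast_div_le ℝ _ _ _ N (2 ^ r)
    push_cast at this
    linarith
  have hpow : ∀ s ∈ Icc 1 (4 * r), 2 ^ (s + 1) ≤ N := fun s hs =>
    (Nat.pow_le_pow_right (by norm_num) (by rw [mem_Icc] at hs; omega)).trans hr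
  have hn1 : 2 ^ (4 * r) ≤ N := (Nat.pow_le_pow_right (by norm_num) (by omega)).trans hr
  refine ⟨cof N a w k, pc N a w k, cof_zero N a w k, fun s h => cof_supp N a w k s,
    cof_conj N a w k, fun s hs h => cof_le a w hk0 (mem_Icc.1 hs).1 (hpow s hs) h,
    pc_eq N a w k, ?_, ?_, ?_⟩
  · intro s hs m
    have hs1 := mem_Icc.1 hs
    have hr1 : 1 ≤ r := by omega
    have hkN : w + k ≤ 2 * N := by
      have h1 : N / 2 ^ r ≤ N / 2 := Nat.div_le_div_left
        (by calc 2 = 2 ^ 1 := rfl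
              _ ≤ 2 ^ r := Nat.pow_le_pow_right (by norm_num) hr1) (by norm_num)
      have h2 : 2 ≤ N := le_trans (by
        calc 2 = 2 ^ 1 := rfl
          _ ≤ 2 ^ (4 * r + 1) := Nat.pow_le_pow_right (by norm_num) (by omega)) hr
      obtain ⟨d, hd⟩ : ∃ d, d = N / 2 ^ r := ⟨_, rfl⟩
      rw [← hd] at hk h1
      omega
    have h3 : 2 ^ s ≤ N := (Nat.pow_le_pow_right (by norm_num) hs1.2).trans hn1
    have h4 : 2 ^ (s - 1) ≤ N := (Nat.pow_le_pow_right (by norm_num) (by omega)).trans hn1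
    have h5 := sig_le a (n := 2 ^ s) (by positivity) h3 hk0 hkN m
    have h6 := sig_le a (n := 2 ^ (s - 1)) (by positivity) h4 hk0 hkN m
    have h7 := sig_nonneg N a w k (2 ^ s) m
    have h8 := sig_nonneg N a w k (2 ^ (s - 1)) m
    unfold pc
    rw [abs_le]
    constructor <;> linarith
  · intro m
    rw [sum_pc, sig_one hN a w hk0]
    have h1 := sig_nonneg N a w k (2 ^ (4 * r)) m
    have h2 : (k : ℝ) / N ≤ 2 / 2 ^ r := by
      rw [div_le_div_iff₀ hN' hp]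
      have h3 : (2 : ℝ) ^ r ≤ N := by
        have : 2 ^ r ≤ N := (Nat.pow_le_pow_right (by norm_num) (by omega)).trans hr
        exact_mod_cast this
      have h4 := mul_le_mul_of_nonneg_right hk2 hp.le
      rw [add_mul, div_mul_cancel₀ _ hp.ne'] at h4
      linarith
    rw [add_div]
    linarith
  · intro m hm
    rw [sum_pc, sig_one hN a w hk0]
    have h1 := sig_lower a (n := 2 ^ (4 * r)) (by positivity) hn1 hk0 hm
    have h2 : √((2 ^ (4 * r) : ℕ) : ℝ) = 2 ^ r * 2 ^ r := by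
      rw [Real.sqrt_eq_iff_mul_self_eq (by positivity) (by positivity)]
      push_cast
      rw [← pow_add, ← pow_add]
      congr 1
      ring
    rw [h2] at h1
    have h3 : (N : ℝ) / (2 * k * (2 ^ r * 2 ^ r)) ≤ 1 / 2 / 2 ^ r := by
      rw [div_le_div_iff₀ (by positivity) hp]
      rw [div_le_iff₀ hp] at hk1
      nlinarith [mul_le_mul_of_nonneg_right hk1 hp.le]
    have h4 : (k : ℝ) / N ≤ 3 / 2 / 2 ^ r := by
      rw [div_le_div_iff₀ hN' hp]
      have h5 : (2 : ℝ) * 2 ^ r ≤ N := by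
        have : 2 * 2 ^ r ≤ N := by
          calc 2 * 2 ^ r = 2 ^ (r + 1) := by rw [pow_succ]; ring
            _ ≤ 2 ^ (4 * r + 1) := Nat.pow_le_pow_right (by norm_num) (by omega)
            _ ≤ N := hr
        exact_mod_cast this
      have h6 := mul_le_mul_of_nonneg_right hk2 hp.le
      rw [add_mul, div_mul_cancel₀ _ hp.ne'] at h6
      linarith
    have h7 : (2 : ℝ) / 2 ^ r = 1 / 2 / 2 ^ r + 3 / 2 / 2 ^ r := by ring
    rw [add_div, h7]
    linarith

end Pool.Agent.Helper81.FP
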